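import Pool.Agent.Helper61.M7.Nine2
import Pool.Agent.Helper56.M7.Step0

/-!
No side with nine vertices contains a side with seven vertices (helper61).
(Problem MP_d067c8_co.)
-/

namespace Pool.Agent.Helper61.M7

open Finset Pool.Agent.Helper19 Pool.Agent.Helper19.CF Pool.Agent.Helper19.RG

section

variable {N : ℕ} [NeZero N] {f : Equiv.Perm (ZMod N)}

theorem s0_all : S0 N := by
  intro f hb h
  have h1 := M7.step0 hb h.m7
  simp only [zero_add, zero_sub, sub_zero] at h1
  exact h1

theorem fr_no_nine (hW : W0 N) (hb : Bad f) (h : Fr f) {X : Finset (ZMod N ⊕ ZMod N)}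
    (hX : Side f X) (h9 : X.card = 9) (hsub : RG.m7 (0 : ZMod N) 0 ⊆ X) : False := by
  have hN := hb.hN
  have ho := hb.hodd
  have hS : S0 N := s0_all
  have a1 := v1 (N := N) hN
  have a2 := v2 (N := N) hN
  have a3 := v3 (N := N) hN
  have am1 := vm1 (N := N) hN
  have am2 := vm2 (N := N) hN
  have am3 := vm3 (N := N) hN
  have z0 : (0 : ZMod N).val = 0 := ZMod.val_zero
  obtain ⟨c, l, d, m, x0, hs⟩ := side_nat hb hX
  have hlm : l + m = 9 := by
    rw [← h9, card_eq_nl_nr, nl_eq, nr_eq, hs.nA, hs.nB]
  have hA : ∀ x : ZMod N, x = 0 - 2 ∨ x = 0 - 1 ∨ x = 0 ∨ x = 0 + 1 →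
      ((c ≤ x.val ∧ x.val < c + l) ∨ x.val + N < c + l) := by
    intro x hx
    rw [← hs.memA]
    apply hsub
    rw [mem_m7_l hN]
    exact hx
  have hB : ∀ y : ZMod N, y = 0 ∨ y = 0 + 1 ∨ y = 0 + 2 →
      ((d ≤ y.val ∧ y.val < d + m) ∨ y.val + N < d + m) := by
    intro x hx
    rw [← hs.memB]
    apply hsub
    rw [mem_m7_r hN]
    exact hx
  have A1 := hA (-2) (Or.inl (by ring))
  have A2 := hA (-1) (Or.inr (Or.inl (by ring)))
  have A3 := hA 0 (Or.inr (Or.inr (Or.inl rfl)))
  have A4 := hA 1 (Or.inr (Or.inr (Or.inr (by ring))))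
  have B1 := hB 0 (Or.inl rfl)
  have B2 := hB 1 (Or.inr (Or.inl (by ring)))
  have B3 := hB 2 (Or.inr (Or.inr (by ring)))
  rw [am2] at A1
  rw [am1] at A2
  rw [z0] at A3 B1
  rw [a1] at A4 B2
  rw [a2] at B3
  have hcN := hs.cN
  have hdN := hs.dN
  obtain ⟨y1, y2⟩ := h.y_ne hb
  obtain ⟨-, -, p3, p4, p5⟩ := hS f hb h
  have i1 : f 0 ≠ 2 := fun e => by
    have := congrArg ZMod.val (f.injective (e.trans h.a.symm))
    rw [z0, am2] at this
    omega
  have i2 : f 0 ≠ 0 := fun e => by
    have := congrArg ZMod.val (f.injective (e.trans h.b.symm))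
    rw [z0, am1] at this
    omega
  have i3 : f 0 ≠ 1 := fun e => by
    have := congrArg ZMod.val (f.injective (e.trans h.g.symm))
    rw [z0, a1] at this
    omega
  have ylt := vlt (f 0)
  have w1 : (f 0).val ≠ 3 := fun e => y1 (vinj (by rw [a3]; exact e))
  have w2 : (f 0).val ≠ N - 1 := fun e => y2 (vinj (by rw [am1]; exact e))
  have w3 : (f 0).val ≠ 2 := fun e => i1 (vinj (by rw [a2]; exact e))
  have w4 : (f 0).val ≠ 0 := fun e => i2 (vinj (by rw [z0]; exact e))
  have w5 : (f 0).val ≠ 1 := fun e => i3 (vinj (by rw [a1]; exact e))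
  have w6 : (f 0).val ≠ N - 2 := fun e => T3 hS hW hb h (vinj (by rw [am2]; exact e))
  rcases hs.shape with ⟨s1, s2, s3, s4, s5, -, -, -, -⟩ | ⟨s1, s2, s3, s4, s5, -, -, -, -⟩
  · -- five columns, four rows
    have hc : c = N - 3 ∨ c = N - 2 := by omega
    have hd : d = N - 1 ∨ d = 0 := by omega
    -- the fourth row
    have key : ∀ r : ZMod N, ((d ≤ r.val ∧ r.val < d + m) ∨ r.val + N < d + m) → r.val ≠ 0 →
        r.val ≠ 1 → r.val ≠ 2 → (c = N - 3 ∧ f (-3) = r) ∨ (c = N - 2 ∧ f 2 = r) := by
      intro r hr r0 r1 r2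
      rw [← hs.memB] at hr
      have hx0 : f.symm r ≠ x0 := by
        intro e
        apply s5
        rw [← e, Equiv.apply_symm_apply]
        exact hr
      have hx := (hs.other _ hx0).mpr (by rw [Equiv.apply_symm_apply]; exact hr)
      rw [hs.memA] at hx
      have n1 : (f.symm r).val ≠ N - 2 := by
        intro e
        have e1 : f.symm r = -2 := vinj (by rw [am2]; exact e)
        rw [Equiv.symm_apply_eq, h.a] at e1
        exact r2 (by rw [e1, a2])
      have n2 : (f.symm r).val ≠ N - 1 := by
        intro e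
        have e1 : f.symm r = -1 := vinj (by rw [am1]; exact e)
        rw [Equiv.symm_apply_eq, h.b] at e1
        exact r0 (by rw [e1, z0])
      have n3 : (f.symm r).val ≠ 1 := by
        intro e
        have e1 : f.symm r = 1 := vinj (by rw [a1]; exact e)
        rw [Equiv.symm_apply_eq, h.g] at e1
        exact r1 (by rw [e1, a1])
      have n4 : (f.symm r).val ≠ 0 := by
        intro e
        have e1 : f.symm r = 0 := vinj (by rw [z0]; exact e)
        rw [Equiv.symm_apply_eq] at e1
        rw [hs.memB, e1] at hr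
        omega
      have hlt := vlt (f.symm r)
      rcases hc with hc | hc
      · left
        refine ⟨hc, ?_⟩
        have e : (f.symm r).val = N - 3 := by omega
        have e1 : f.symm r = -3 := vinj (by rw [am3]; exact e)
        rw [Equiv.symm_apply_eq] at e1
        exact e1.symm
      · right
        refine ⟨hc, ?_⟩
        have e : (f.symm r).val = 2 := by omega
        have e1 : f.symm r = 2 := vinj (by rw [a2]; exact e)
        rw [Equiv.symm_apply_eq] at e1
        exact e1.symm
    rcases hd with hd | hd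
    · rcases key (-1) (by rw [am1]; omega) (by omega) (by omega) (by omega) with ⟨-, e⟩ | ⟨-, e⟩
      · exact T1 hS hW hb h e
      · exact T2 hS hb h e
    · rcases key 3 (by rw [a3]; omega) (by omega) (by omega) (by omega) with ⟨-, e⟩ | ⟨-, e⟩
      · rw [e, a3] at p3
        omega
      · rw [e, a3] at p4
        omega
  · -- four columns, five rows
    have hx0 : (0 : ZMod N) ≠ x0 := by
      intro e
      apply s4
      rw [← e, hs.memA, z0]
      omega
    have hx := (hs.other _ hx0).mp (by rw [hs.memA, z0]; omega)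
    rw [hs.memB] at hx
    omega

/-- No side with nine vertices contains the side with seven vertices of a frame. -/
theorem no_nine_of (hW : W0 N) (hb : Bad f) {c d : ZMod N} (h : RG.M7 f c d)
    {X : Finset (ZMod N ⊕ ZMod N)} (hX : Side f X) (h9 : X.card = 9) : ¬ RG.m7 c d ⊆ X := by
  intro hsub
  have hN := hb.hN
  refine fr_no_nine hW (bad_shift hb c d) (fr_shift h) (hX.im (shiftIso (by omega) f c d))
    ((card_map _).trans h9) ?_
  rintro (x | x) hx
  · rw [mem_m7_l hN] at hx
    rw [shift_inl (by omega)]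
    apply hsub
    rw [mem_m7_l hN]
    rcases hx with rfl | rfl | rfl | rfl
    · left; ring
    · right; left; ring
    · right; right; left; ring
    · right; right; right; ring
  · rw [mem_m7_r hN] at hx
    rw [shift_inr (by omega)]
    apply hsub
    rw [mem_m7_r hN]
    rcases hx with rfl | rfl | rfl
    · left; ring
    · right; left; ring
    · right; right; ring

end

end Pool.Agent.Helper61.M7
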