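import Pool.Agent.Helper19.RG.Sym

/-!
Sides with seven vertices: the common frame (helper61). (Problem MP_d067c8_co.)
-/

namespace Pool.Agent.Helper61.M7

open Finset Pool.Agent.Helper19 Pool.Agent.Helper19.CF Pool.Agent.Helper19.RG

section

variable {N : ℕ} [NeZero N] {f f' : Equiv.Perm (ZMod N)}

/-- Translations of both rims. -/
def shift (f : Equiv.Perm (ZMod N)) (c d : ZMod N) : Equiv.Perm (ZMod N) :=
  (Equiv.addRight c).trans (f.trans (Equiv.subRight d))

omit [NeZero N] in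
theorem shift_apply (f : Equiv.Perm (ZMod N)) (c d x : ZMod N) :
    shift f c d x = f (x + c) - d := rfl

omit [NeZero N] in
theorem shift_symm (f : Equiv.Perm (ZMod N)) (c d y : ZMod N) :
    (shift f c d).symm y = f.symm (y + d) - c := by
  rw [Equiv.symm_apply_eq, shift_apply, sub_add_cancel, Equiv.apply_symm_apply,
    add_sub_cancel_right]

def shiftIso (hN : 1 < N) (f : Equiv.Perm (ZMod N)) (c d : ZMod N) :
    permGraph N f ≃g permGraph N (shift f c d) where
  toEquiv := Equiv.sumCongr (Equiv.subRight c) (Equiv.subRight d)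
  map_rel_iff' := by
    rintro (x | x) (y | y)
    · show (permGraph N (shift f c d)).Adj (.inl (x - c)) (.inl (y - c)) ↔ _
      rw [adj_ll hN, adj_ll hN]
      constructor
      · rintro (h | h)
        · left
          linear_combination h
        · right
          linear_combination h
      · rintro (h | h)
        · left
          rw [h]; ring
        · right
          rw [h]; ring
    · show (permGraph N (shift f c d)).Adj (.inl (x - c)) (.inr (y - d)) ↔ _
      rw [adj_lr, adj_lr, shift_apply, sub_add_cancel, sub_left_inj]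
    · show (permGraph N (shift f c d)).Adj (.inr (x - d)) (.inl (y - c)) ↔ _
      rw [adj_rl, adj_rl, shift_apply, sub_add_cancel, sub_left_inj]
    · show (permGraph N (shift f c d)).Adj (.inr (x - d)) (.inr (y - d)) ↔ _
      rw [adj_rr hN, adj_rr hN]
      constructor
      · rintro (h | h)
        · left
          linear_combination h
        · right
          linear_combination h
      · rintro (h | h)
        · left
          rw [h]; ring
        · right
          rw [h]; ring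

theorem shift_inl (hN : 1 < N) (c d x : ZMod N) (M : Finset (ZMod N ⊕ ZMod N)) :
    (.inl x : ZMod N ⊕ ZMod N) ∈ im (shiftIso hN f c d) M ↔
      (.inl (x + c) : ZMod N ⊕ ZMod N) ∈ M := by
  rw [mem_im']
  rfl

theorem shift_inr (hN : 1 < N) (c d x : ZMod N) (M : Finset (ZMod N ⊕ ZMod N)) :
    (.inr x : ZMod N ⊕ ZMod N) ∈ im (shiftIso hN f c d) M ↔
      (.inr (x + d) : ZMod N ⊕ ZMod N) ∈ M := by
  rw [mem_im']
  rfl

theorem bad_rot (h : Bad f) : Bad (RG.rot f) := Bad.iso (rotIso (by have := h.hN; omega) f) h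

theorem bad_half (h : Bad f) : Bad (RG.half f) := Bad.iso (halfIso (by have := h.hN; omega) f) h

theorem bad_mir (h : Bad f) : Bad (RG.mir f) := Bad.iso (mirIso (by have := h.hN; omega) f) h

theorem bad_shift (h : Bad f) (c d : ZMod N) : Bad (shift f c d) :=
  Bad.iso (shiftIso (by have := h.hN; omega) f c d) h

/-- The transposed graph. -/
theorem bad_inv (h : Bad f) : Bad f.symm := by
  have h1 := bad_mir (bad_rot h)
  have h2 : RG.mir (RG.rot f) = f.symm := by
    ext x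
    rw [mir_apply, rot_apply, neg_neg]
  rwa [h2] at h1

/-- `x ↦ f (-x)`. -/
theorem bad_neg (h : Bad f) : Bad ((Equiv.neg (ZMod N)).trans f) := by
  have h1 := bad_mir (bad_half h)
  have h2 : RG.mir (RG.half f) = (Equiv.neg (ZMod N)).trans f := by
    ext x
    rw [mir_apply, half_apply, neg_neg]
    rfl
  rwa [h2] at h1

/-! Values. -/

theorem v0 : (0 : ZMod N).val = 0 := ZMod.val_zero

theorem vn (hN : 9 ≤ N) (k : ℕ) (hk : k < N) : ((k : ℕ) : ZMod N).val = k :=
  ZMod.val_natCast_of_lt hk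

theorem v1 (hN : 9 ≤ N) : (1 : ZMod N).val = 1 := by
  have h := vn hN 1 (by omega)
  rwa [Nat.cast_one] at h

theorem v2 (hN : 9 ≤ N) : (2 : ZMod N).val = 2 := vn hN 2 (by omega)
theorem v3 (hN : 9 ≤ N) : (3 : ZMod N).val = 3 := vn hN 3 (by omega)
theorem v4 (hN : 9 ≤ N) : (4 : ZMod N).val = 4 := vn hN 4 (by omega)

theorem vneg (w : ZMod N) : (w.val = 0 ∧ (-w).val = 0) ∨ (0 < w.val ∧ (-w).val = N - w.val) := by
  by_cases h : w = 0
  · left
    rw [h, neg_zero, ZMod.val_zero]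
    exact ⟨rfl, rfl⟩
  · right
    refine ⟨?_, val_neg' w h⟩
    rw [Nat.pos_iff_ne_zero, Ne, ZMod.val_eq_zero]
    exact h

theorem vm1 (hN : 9 ≤ N) : (-1 : ZMod N).val = N - 1 := by
  rcases vneg (1 : ZMod N) with h | h
  · rw [v1 hN] at h; omega
  · rw [v1 hN] at h; exact h.2
theorem vm2 (hN : 9 ≤ N) : (-2 : ZMod N).val = N - 2 := by
  rcases vneg (2 : ZMod N) with h | h
  · rw [v2 hN] at h; omega
  · rw [v2 hN] at h; exact h.2
theorem vm3 (hN : 9 ≤ N) : (-3 : ZMod N).val = N - 3 := by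
  rcases vneg (3 : ZMod N) with h | h
  · rw [v3 hN] at h; omega
  · rw [v3 hN] at h; exact h.2
theorem vm4 (hN : 9 ≤ N) : (-4 : ZMod N).val = N - 4 := by
  rcases vneg (4 : ZMod N) with h | h
  · rw [v4 hN] at h; omega
  · rw [v4 hN] at h; exact h.2

theorem vlt (x : ZMod N) : x.val < N := ZMod.val_lt x

theorem vinj {x y : ZMod N} (h : x.val = y.val) : x = y := ZMod.val_injective N h

theorem vsucc (hN : 9 ≤ N) (x : ZMod N) :
    (x.val + 1 < N ∧ (x + 1).val = x.val + 1) ∨ (x.val + 1 = N ∧ (x + 1).val = 0) := by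
  by_cases h : x = -1
  · right
    rw [h, vm1 hN, neg_add_cancel, ZMod.val_zero]
    omega
  · left
    have h1 := val_succ x h
    have h2 := vlt (x + 1)
    omega

theorem vpred (hN : 9 ≤ N) (x : ZMod N) :
    (1 ≤ x.val ∧ (x - 1).val = x.val - 1) ∨ (x.val = 0 ∧ (x - 1).val = N - 1) := by
  have h := vsucc hN (x - 1)
  rw [sub_add_cancel] at h
  omega

/-- Differences. -/
theorem vsub (x c : ZMod N) : (c.val ≤ x.val ∧ (x - c).val = x.val - c.val) ∨
    (x.val < c.val ∧ (x - c).val = x.val + N - c.val) := by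
  by_cases h : c.val ≤ x.val
  · left
    exact ⟨h, ZMod.val_sub h⟩
  · right
    have h1 := ZMod.val_sub (a := c) (b := x) (by omega)
    have h2 : x - c = -(c - x) := by ring
    have h3 := vneg (c - x)
    rw [← h2] at h3
    have := vlt c
    have := vlt x
    omega

/-- Sums. -/
theorem vadd (x c : ZMod N) : (x.val + c.val < N ∧ (x + c).val = x.val + c.val) ∨
    (N ≤ x.val + c.val ∧ (x + c).val = x.val + c.val - N) := by
  have h := vsub (x + c) c
  rw [add_sub_cancel_right] at h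
  have := vlt c
  have := vlt x
  have := vlt (x + c)
  omega

theorem arc_iff (x c : ZMod N) {l : ℕ} (hl : l ≤ N) : (x - c).val < l ↔
    ((c.val ≤ x.val ∧ x.val < c.val + l) ∨ x.val + N < c.val + l) := by
  have h1 := vsub x c
  have := vlt c
  have := vlt x
  omega

/-- A vertex of a side has at most one neighbour on the other side. -/
theorem side_nb (hb : Bad f) {Y : Finset (ZMod N ⊕ ZMod N)} (hY : Side f Y)
    {v u w : ZMod N ⊕ ZMod N} (hv : v ∈ Y) (huw : u ≠ w) (h1 : (permGraph N f).Adj v u)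
    (h2 : (permGraph N f).Adj v w) (hu : u ∉ Y) : w ∈ Y := by
  by_contra hw
  exact hY.two_out hb hv hu hw huw h1 h2

/-- A side in natural numbers. -/
structure SN (f : Equiv.Perm (ZMod N)) (Y : Finset (ZMod N ⊕ ZMod N)) (c l d m : ℕ)
    (x0 : ZMod N) : Prop where
  cN : c < N
  dN : d < N
  memA : ∀ x : ZMod N, (.inl x : ZMod N ⊕ ZMod N) ∈ Y ↔
    ((c ≤ x.val ∧ x.val < c + l) ∨ x.val + N < c + l)
  memB : ∀ y : ZMod N, (.inr y : ZMod N ⊕ ZMod N) ∈ Y ↔
    ((d ≤ y.val ∧ y.val < d + m) ∨ y.val + N < d + m)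
  nA : nA Y = l
  nB : nB Y = m
  other : ∀ x, x ≠ x0 → ((.inl x : ZMod N ⊕ ZMod N) ∈ Y ↔ (.inr (f x) : ZMod N ⊕ ZMod N) ∈ Y)
  shape : (l = m + 1 ∧ 3 ≤ m ∧ l + 3 ≤ N ∧ (.inl x0 : ZMod N ⊕ ZMod N) ∈ Y ∧
      (.inr (f x0) : ZMod N ⊕ ZMod N) ∉ Y ∧
      (.inl (x0 + 1) : ZMod N ⊕ ZMod N) ∈ Y ∧ (.inl (x0 - 1) : ZMod N ⊕ ZMod N) ∈ Y ∧
      (.inr (f x0 + 1) : ZMod N ⊕ ZMod N) ∉ Y ∧ (.inr (f x0 - 1) : ZMod N ⊕ ZMod N) ∉ Y) ∨
    (m = l + 1 ∧ 3 ≤ l ∧ m + 3 ≤ N ∧ (.inl x0 : ZMod N ⊕ ZMod N) ∉ Y ∧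
      (.inr (f x0) : ZMod N ⊕ ZMod N) ∈ Y ∧
      (.inl (x0 + 1) : ZMod N ⊕ ZMod N) ∉ Y ∧ (.inl (x0 - 1) : ZMod N ⊕ ZMod N) ∉ Y ∧
      (.inr (f x0 + 1) : ZMod N ⊕ ZMod N) ∈ Y ∧ (.inr (f x0 - 1) : ZMod N ⊕ ZMod N) ∈ Y)

theorem side_nat (hb : Bad f) {Y : Finset (ZMod N ⊕ ZMod N)} (hY : Side f Y) :
    ∃ (c l d m : ℕ) (x0 : ZMod N), SN f Y c l d m x0 := by
  classical
  have hN := hb.hN
  obtain ⟨c, d, l, m, x0, h1, h2, h3, h4, h5, h6, h7, h8⟩ :=
    cut_arcs (by omega) hY.dd (by have := hY.seven; omega) (by have := hY.seven'; omega)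
  have nA1 : RG.nA Y = l := by
    unfold RG.nA
    simp only [h5]
    exact card_arc c (by omega)
  have nB1 : RG.nB Y = m := by
    unfold RG.nB
    simp only [h6]
    exact card_arc d (by omega)
  have hcard : Y.card = l + m := by rw [card_eq_nl_nr, nl_eq, nr_eq, nA1, nB1]
  have h9 := hY.seven
  have h10 := hY.seven'
  have h11 : Y.card + Yᶜ.card = 2 * N := by
    rw [card_add_card_compl, Fintype.card_sum, ZMod.card]
    ring
  have hF : Fact (1 < N) := ⟨by omega⟩
  have h12 : (1 : ZMod N) ≠ 0 := one_ne_zero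
  have h13 : (2 : ZMod N) ≠ 0 := two_ne (by omega)
  have aA1 : ∀ x : ZMod N, (permGraph N f).Adj (.inl x) (.inl (x + 1)) := fun x =>
    (adj_ll (by omega) _ _).mpr (Or.inl rfl)
  have aA2 : ∀ x : ZMod N, (permGraph N f).Adj (.inl x) (.inl (x - 1)) := fun x =>
    (adj_ll (by omega) _ _).mpr (Or.inr (by ring))
  have aB1 : ∀ x : ZMod N, (permGraph N f).Adj (.inr x) (.inr (x + 1)) := fun x =>
    (adj_rr (by omega) _ _).mpr (Or.inl rfl)
  have aB2 : ∀ x : ZMod N, (permGraph N f).Adj (.inr x) (.inr (x - 1)) := fun x =>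
    (adj_rr (by omega) _ _).mpr (Or.inr (by ring))
  have aS : ∀ x : ZMod N, (permGraph N f).Adj (.inl x) (.inr (f x)) := fun x =>
    (adj_lr _ _).mpr rfl
  refine ⟨c.val, l, d.val, m, x0, vlt c, vlt d, fun x => by rw [h5, arc_iff _ _ h2.le],
    fun y => by rw [h6, arc_iff _ _ h4.le], nA1, nB1, h8, ?_⟩
  by_cases hx : (.inl x0 : ZMod N ⊕ ZMod N) ∈ Y
  · left
    have hx' : (.inr (f x0) : ZMod N ⊕ ZMod N) ∉ Y := fun h => h7 ⟨fun _ => h, fun _ => hx⟩
    have h14 := card_star hx hx' h8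
    have hxc : (.inr (f x0) : ZMod N ⊕ ZMod N) ∈ Yᶜ := mem_compl.mpr hx'
    have hxc' : (.inl x0 : ZMod N ⊕ ZMod N) ∉ Yᶜ := notMem_compl.mpr hx
    refine ⟨by omega, by omega, by omega, hx, hx', ?_, ?_, ?_, ?_⟩
    · exact side_nb hb hY hx Sum.inr_ne_inl (aS x0) (aA1 x0) hx'
    · exact side_nb hb hY hx Sum.inr_ne_inl (aS x0) (aA2 x0) hx'
    · exact mem_compl.mp (side_nb hb hY.compl hxc Sum.inl_ne_inr (aS x0).symm (aB1 _) hxc')
    · exact mem_compl.mp (side_nb hb hY.compl hxc Sum.inl_ne_inr (aS x0).symm (aB2 _) hxc')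
  · right
    have hx' : (.inr (f x0) : ZMod N ⊕ ZMod N) ∈ Y := by
      by_contra h
      exact h7 ⟨fun h' => absurd h' hx, fun h' => absurd h' h⟩
    have h14 := card_star' hx hx' h8
    have hxc : (.inr (f x0) : ZMod N ⊕ ZMod N) ∉ Yᶜ := notMem_compl.mpr hx'
    have hxc' : (.inl x0 : ZMod N ⊕ ZMod N) ∈ Yᶜ := mem_compl.mpr hx
    refine ⟨by omega, by omega, by omega, hx, hx', ?_, ?_, ?_, ?_⟩
    · exact mem_compl.mp (side_nb hb hY.compl hxc' Sum.inr_ne_inl (aS x0) (aA1 _) hxc)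
    · exact mem_compl.mp (side_nb hb hY.compl hxc' Sum.inr_ne_inl (aS x0) (aA2 _) hxc)
    · exact side_nb hb hY hx' Sum.inl_ne_inr (aS x0).symm (aB1 _) hx
    · exact side_nb hb hY hx' Sum.inl_ne_inr (aS x0).symm (aB2 _) hx

/-- A side with seven vertices in standard position: its columns are `-2, -1, 0, 1`, its rows
`0, 1, 2`, its star the column `0`. -/
structure Fr (f : Equiv.Perm (ZMod N)) : Prop where
  a : f (-2) = 2
  b : f (-1) = 0
  g : f 1 = 1

omit [NeZero N] in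
theorem Fr.m7 (h : Fr f) : RG.M7 f 0 0 :=
  ⟨by rw [zero_sub, zero_add]; exact h.a, by rw [zero_sub]; exact h.b,
    by rw [zero_add]; exact h.g⟩

omit [NeZero N] in
theorem fr_shift {c d : ZMod N} (h : RG.M7 f c d) : Fr (shift f c d) := by
  refine ⟨?_, ?_, ?_⟩
  · rw [shift_apply, show (-2 : ZMod N) + c = c - 2 by ring, h.a]; ring
  · rw [shift_apply, show (-1 : ZMod N) + c = c - 1 by ring, h.b]; ring
  · rw [shift_apply, show (1 : ZMod N) + c = c + 1 by ring, h.g]; ring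

end

end Pool.Agent.Helper61.M7
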