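import Pool.Agent.Helper61.M7.Def

/-!
No side with nine vertices contains a side with seven vertices (helper61).
(Problem MP_d067c8_co.)
-/

namespace Pool.Agent.Helper61.M7

open Finset Pool.Agent.Helper19 Pool.Agent.Helper19.CF Pool.Agent.Helper19.RG

section

variable {N : ℕ} [NeZero N] {f : Equiv.Perm (ZMod N)}

/-- The parities at a side with seven vertices. -/
def S0 (N : ℕ) [NeZero N] : Prop := ∀ f : Equiv.Perm (ZMod N), Bad f → Fr f →
  (f.symm 3).val % 2 = 0 ∧ (f.symm (-1)).val % 2 = 0 ∧ (f (-3)).val % 2 = 0 ∧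
    (f 2).val % 2 = 0 ∧ (f 0).val % 2 = 1

/-- What is needed of the word `W0`. -/
def W0 (N : ℕ) [NeZero N] : Prop := ∀ f : Equiv.Perm (ZMod N), Bad f → Fr f →
  (f.symm (f 0 - 1)).val % 2 = 1 → ∃ X : Finset (ZMod N ⊕ ZMod N),
    (.inr (f 0 + 1) : ZMod N ⊕ ZMod N) ∈ X ∧ (.inr (-1) : ZMod N ⊕ ZMod N) ∉ X

/-- The spokes of the word `W1'`. -/
def qw (v : ZMod N) (i : ℤ) : ZMod N :=
  if i = 0 then 0 else if i = 1 then 1 else if i = 2 then -2 else if i = 3 then -1
  else if i = 4 then v else v + 1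

omit [NeZero N] in
theorem qw0 (v : ZMod N) : qw v 0 = 0 := by simp [qw]
omit [NeZero N] in
theorem qw1 (v : ZMod N) : qw v 1 = 1 := by simp [qw]
omit [NeZero N] in
theorem qw2 (v : ZMod N) : qw v 2 = -2 := by simp [qw]
omit [NeZero N] in
theorem qw3 (v : ZMod N) : qw v 3 = -1 := by simp [qw]
omit [NeZero N] in
theorem qw4 (v : ZMod N) : qw v 4 = v := by simp [qw]
omit [NeZero N] in
theorem qw5 (v : ZMod N) : qw v 5 = v + 1 := by simp [qw]

/-- The colours of the columns. -/
def wcA (N v u : ℕ) : ℕ := if u = 0 then 0 else if u ≤ v then u + 1 else if u + 1 = N then 1 else u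

theorem wcA_mono {N v u : ℕ} (h2 : 1 ≤ v) (h4 : v + 4 ≤ N) (ho : N % 2 = 1) (hu : u < N)
    (hm : (wcA N v u + wcA N v (if u + 1 = N then 0 else u + 1)) % 2 = 0) :
    u = 0 ∨ u = v ∨ u = N - 2 := by
  by_cases h : u + 1 = N
  · rw [if_pos h] at hm
    unfold wcA at hm
    rw [if_neg (by omega), if_neg (by omega), if_pos h, if_pos rfl] at hm
    omega
  · rw [if_neg h] at hm
    unfold wcA at hm
    rw [if_neg (by omega : ¬ u + 1 = 0)] at hm
    by_cases h0 : u = 0
    · exact Or.inl h0
    · rw [if_neg h0] at hm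
      by_cases h1 : u < v
      · rw [if_pos h1.le, if_pos (by omega : u + 1 ≤ v)] at hm
        omega
      · by_cases h3 : u = v
        · exact Or.inr (Or.inl h3)
        · rw [if_neg (by omega : ¬ u ≤ v), if_neg h, if_neg (by omega : ¬ u + 1 ≤ v)] at hm
          by_cases h5 : u + 1 + 1 = N
          · right; right; omega
          · rw [if_neg h5] at hm
            omega

/-- The index of a spoke of the word from its position. -/
def dec (N v u : ℕ) : ℤ := if u = 0 then 0 else if u = 1 then 1 else if u + 2 = N then 2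
  else if u + 1 = N then 3 else if u = v then 4 else 5

theorem cast_val (x : ZMod N) : ((x.val : ℕ) : ZMod N) = x := ZMod.natCast_zmod_val x

/-- The word `W1'`. -/
theorem w1p_qz (hb : Bad f) (h : Fr f) {v : ZMod N} (hv : f v = -1) (hy : (f 0).val % 2 = 1)
    (hve : v.val % 2 = 0) (hv3 : v ≠ -3) (hv0 : v ≠ 0) (hve' : (f (v + 1)).val % 2 = 0) :
    QZ f 0 5 (qw v) (fun x => decide (wcA N v.val (x - 0).val % 2 = 0))
      (fun y => decide ((y - 0).val % 2 = 0)) := by
  have hN := hb.hN
  have ho := hb.hodd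
  have a1 := v1 (N := N) hN
  have am1 := vm1 (N := N) hN
  have am2 := vm2 (N := N) hN
  have am3 := vm3 (N := N) hN
  have a2 := v2 (N := N) hN
  have z0 : (0 : ZMod N).val = 0 := ZMod.val_zero
  have hlt := vlt v
  have hne : ∀ {x y : ZMod N}, x ≠ y → x.val ≠ y.val := fun hxy he => hxy (vinj he)
  -- the position of `v`
  have n1 : v ≠ 1 := by
    rintro rfl
    rw [h.g] at hv
    have := congrArg ZMod.val hv
    omega
  have n2 : v ≠ -1 := by
    rintro rfl
    rw [h.b] at hv
    have := congrArg ZMod.val hv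
    omega
  have n3 : v ≠ -2 := by
    rintro rfl
    rw [h.a] at hv
    have := congrArg ZMod.val hv
    omega
  have m0 := hne hv0
  have m1 := hne n1
  have m2 := hne n2
  have m3 := hne n3
  have m4 := hne hv3
  have hs := vsucc hN v
  have hvv : v.val + 4 ≤ N := by omega
  have hcase : ∀ i : ℤ, 0 ≤ i → i ≤ 5 → i = 0 ∨ i = 1 ∨ i = 2 ∨ i = 3 ∨ i = 4 ∨ i = 5 := by
    intro i h1 h2
    omega
  have hdec : ∀ i : ℤ, 0 ≤ i → i ≤ 5 → dec N v.val (qw v i).val = i := by
    intro i h1 h2
    unfold dec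
    rcases hcase i h1 h2 with rfl | rfl | rfl | rfl | rfl | rfl
    · rw [qw0, z0, if_pos rfl]
    · rw [qw1, a1, if_neg (by norm_num), if_pos rfl]
    · rw [qw2, am2, if_neg (by omega), if_neg (by omega), if_pos (by omega)]
    · rw [qw3, am1, if_neg (by omega), if_neg (by omega), if_neg (by omega), if_pos (by omega)]
    · rw [qw4, if_neg (by omega), if_neg (by omega), if_neg (by omega), if_neg (by omega),
        if_pos rfl]
    · rw [qw5, if_neg (by omega), if_neg (by omega), if_neg (by omega), if_neg (by omega),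
        if_neg (by omega)]
  refine qz_pos (wcA N v.val) (fun u => u) (by norm_num) ?_ ?_ ?_ ?_ ?_ ?_
  · intro i i' h1 h2 h3 h4 h5
    rw [← hdec i h1 h2, ← hdec i' h3 h4, h5]
  · intro i h1 h2 h3
    rcases hcase i h1 (by omega) with rfl | rfl | rfl | rfl | rfl | rfl
    · left; rw [zero_add, qw0, qw1, zero_add]
    · omega
    · left; rw [show (2 : ℤ) + 1 = 3 by norm_num, qw2, qw3]; ring
    · omega
    · left; rw [show (4 : ℤ) + 1 = 5 by norm_num, qw4, qw5]
    · omega
  · intro i h1 h2 h3
    rcases hcase i h1 (by omega) with rfl | rfl | rfl | rfl | rfl | rfl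
    · omega
    · left; rw [show (1 : ℤ) + 1 = 2 by norm_num, qw1, qw2, h.a, h.g]; ring
    · omega
    · right; rw [show (3 : ℤ) + 1 = 4 by norm_num, qw3, qw4, h.b, hv]; ring
    · omega
    · omega
  · intro i h1 h2
    simp only [sub_zero]
    rcases hcase i h1 (by omega) with rfl | rfl | rfl | rfl | rfl | rfl
    · rw [qw0, z0]
      unfold wcA
      rw [if_pos rfl]
      omega
    · rw [qw1, h.g, a1]
      unfold wcA
      rw [if_neg (by omega), if_pos (by omega)]
    · rw [qw2, h.a, am2, a2]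
      unfold wcA
      rw [if_neg (by omega), if_neg (by omega), if_neg (by omega)]
      omega
    · rw [qw3, h.b, am1, z0]
      unfold wcA
      rw [if_neg (by omega), if_neg (by omega), if_pos (by omega)]
    · rw [qw4, hv, am1]
      unfold wcA
      rw [if_neg (by omega), if_pos (by omega)]
      omega
    · rw [qw5]
      unfold wcA
      rw [if_neg (by omega), if_neg (by omega), if_neg (by omega)]
      omega
  · intro u hu hm
    rcases wcA_mono (by omega) hvv ho hu hm with rfl | rfl | rfl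
    · refine ⟨0, by norm_num, by norm_num, by norm_num, Or.inl ⟨?_, ?_⟩⟩
      · rw [qw0]; simp
      · rw [zero_add, qw1]; simp
    · refine ⟨4, by norm_num, by norm_num, by norm_num, Or.inl ⟨?_, ?_⟩⟩
      · rw [qw4, cast_val, zero_add]
      · rw [show (4 : ℤ) + 1 = 5 by norm_num, qw5, cast_val, zero_add]
    · have e : ((N - 2 : ℕ) : ZMod N) = -2 := by
        rw [← am2, cast_val]
      refine ⟨2, by norm_num, by norm_num, by norm_num, Or.inl ⟨?_, ?_⟩⟩
      · rw [qw2, e, zero_add]
      · rw [show (2 : ℤ) + 1 = 3 by norm_num, qw3, e]; ring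
  · intro u hu hm
    have hu' : u = N - 1 := by
      split_ifs at hm <;> omega
    have e : ((u : ℕ) : ZMod N) = -1 := by
      rw [hu', ← am1, cast_val]
    refine ⟨3, by norm_num, by norm_num, by norm_num, Or.inr ⟨?_, ?_⟩⟩
    · rw [qw3, h.b, e]; ring
    · rw [show (3 : ℤ) + 1 = 4 by norm_num, qw4, hv, e]; ring

end

end Pool.Agent.Helper61.M7
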