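import Pool.Agent.Helper61.M7.Nine

/-!
No side with nine vertices contains a side with seven vertices (helper61): the three cases.
(Problem MP_d067c8_co.)
-/

namespace Pool.Agent.Helper61.M7

open Finset Pool.Agent.Helper19 Pool.Agent.Helper19.CF Pool.Agent.Helper19.RG

section

variable {N : ℕ} [NeZero N] {f : Equiv.Perm (ZMod N)}

/-- The star is far from the rows. -/
theorem Fr.y_ne (hb : Bad f) (h : Fr f) : f 0 ≠ 3 ∧ f 0 ≠ -1 := by
  have hN := hb.hN
  have hs := (h.m7.side hN).1
  have h1 : (.inl (0 : ZMod N) : ZMod N ⊕ ZMod N) ∈ RG.m7 (0 : ZMod N) 0 := by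
    rw [mem_m7_l hN]; simp
  have m0 := mem_m7_r hN (c := (0 : ZMod N)) (d := 0) (f 0)
  have m1 := mem_m7_r hN (c := (0 : ZMod N)) (d := 0) (f 0 + 1)
  have m2 := mem_m7_r hN (c := (0 : ZMod N)) (d := 0) (f 0 - 1)
  rw [zero_add, zero_add] at m0 m1 m2
  have h2 : (.inr (f 0) : ZMod N ⊕ ZMod N) ∉ RG.m7 (0 : ZMod N) 0 := by
    rw [m0]
    have e1 : (0 : ZMod N) ≠ -1 := fun e => by
      have := congrArg ZMod.val e
      rw [vm1 hN, ZMod.val_zero] at this; omega
    have e2 : (0 : ZMod N) ≠ 1 := fun e => by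
      have := congrArg ZMod.val e
      rw [v1 hN, ZMod.val_zero] at this; omega
    have e3 : (0 : ZMod N) ≠ -2 := fun e => by
      have := congrArg ZMod.val e
      rw [vm2 hN, ZMod.val_zero] at this; omega
    rintro (g | g | g)
    · exact e1 (f.injective (g.trans h.b.symm))
    · exact e2 (f.injective (g.trans h.g.symm))
    · exact e3 (f.injective (g.trans h.a.symm))
  obtain ⟨-, -, g1, g2⟩ := hs.starA hb h1 h2
  rw [m1] at g1
  rw [m2] at g2
  constructor
  · intro e
    apply g2
    right; right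
    rw [e]; ring
  · intro e
    apply g1
    left
    rw [e]; ring

/-- Case T2. -/
theorem T2 (hS : S0 N) (hb : Bad f) (h : Fr f) : f 2 ≠ -1 := by
  intro hv
  have hN := hb.hN
  have ho := hb.hodd
  have a1 := v1 (N := N) hN
  have a2 := v2 (N := N) hN
  have am1 := vm1 (N := N) hN
  have am3 := vm3 (N := N) hN
  have z0 : (0 : ZMod N).val = 0 := ZMod.val_zero
  obtain ⟨-, -, -, -, hy⟩ := hS f hb h
  -- the other side with seven vertices
  have hb' := bad_shift (bad_half hb) 0 (-1)
  have e' : ∀ x, shift (half f) 0 (-1) x = 1 - f (-x) := by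
    intro x
    rw [shift_apply, half_apply, add_zero]
    ring
  have hF : Fr (shift (half f) 0 (-1)) := by
    refine ⟨?_, ?_, ?_⟩
    · rw [e', neg_neg, hv]; ring
    · rw [e', neg_neg, h.g]; ring
    · rw [e', h.b]; ring
  obtain ⟨-, -, h3, -, -⟩ := hS _ hb' hF
  rw [e', neg_neg] at h3
  have h3' : (f 3).val % 2 = 0 := by
    have g := vsub 1 (f 3)
    rw [a1] at g
    have g1 : (f 3).val ≠ 1 := by
      intro e
      have e2 : f 3 = 1 := vinj (by rw [a1]; exact e)
      have e3 := congrArg ZMod.val (f.injective (e2.trans h.g.symm))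
      rw [v3 hN, a1] at e3
      omega
    have := vlt (f 3)
    omega
  have e3 : (2 : ZMod N) + 1 = 3 := by norm_num
  have hq := w1p_qz hb h hv hy (by rw [a2]) (fun e => by
    have := congrArg ZMod.val e
    rw [a2, am3] at this; omega) (fun e => by
    have := congrArg ZMod.val e
    rw [a2, z0] at this; omega) (by rw [e3]; exact h3')
  obtain ⟨Y, k, hk, hk1, hk2⟩ := hb.kill hq
  have hnb := hk.nbr hb
  have hk' : k = 1 ∨ k = 2 ∨ k = 3 ∨ k = 4 := by omega
  rcases hk' with rfl | rfl | rfl | rfl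
  · have g1 := (hnb.2 (by norm_num)).1
    rw [qw1] at g1
    have g2 := hk.exOut 4 (by norm_num) (by norm_num)
    unfold RG.ext at g2
    rw [if_pos (by norm_num), qw4] at g2
    apply g2
    rw [one_add_one_eq_two] at g1
    exact g1
  · have g1 := hk.exIn 0 le_rfl (by norm_num)
    have g2 := hk.entIn 1 (by norm_num) (by norm_num)
    have g3 := hk.entOut 3 (by norm_num) (by norm_num)
    have g4 := hk.exOut 4 (by norm_num) (by norm_num)
    unfold RG.ext at g1 g4
    unfold RG.ent at g2 g3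
    rw [if_pos (by norm_num), qw0] at g1
    rw [if_neg (by norm_num), qw1] at g2
    rw [if_neg (by norm_num), qw3] at g3
    rw [if_pos (by norm_num), qw4] at g4
    obtain ⟨c, l, d, m, x0, hs⟩ := side_nat hb hk.side
    rw [hs.memA, z0] at g1
    rw [hs.memA, a1] at g2
    rw [hs.memA, am1] at g3
    rw [hs.memA, a2] at g4
    have h5 := hs.cN
    have h6 : 3 ≤ l := by
      rcases hs.shape with h6 | h6 <;> omega
    omega
  · have g1 := (hnb.2 (by norm_num)).2.2.1
    rw [qw3, h.b, zero_add] at g1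
    have g2 := hk.exIn 1 (by norm_num) (by norm_num)
    unfold RG.ext at g2
    rw [if_neg (by norm_num), qw1, h.g] at g2
    exact g1 g2
  · have g1 := (hnb.1 (by norm_num)).2.1
    rw [qw4] at g1
    have g2 := hk.entIn 1 (by norm_num) (by norm_num)
    unfold RG.ent at g2
    rw [if_neg (by norm_num), qw1] at g2
    apply g1
    have : (2 : ZMod N) - 1 = 1 := by ring
    rw [this]
    exact g2

/-- Case T3. -/
theorem T3 (hS : S0 N) (hW : W0 N) (hb : Bad f) (h : Fr f) : f 0 ≠ -2 := by
  intro hy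
  have hN := hb.hN
  have ho := hb.hodd
  have a1 := v1 (N := N) hN
  have am1 := vm1 (N := N) hN
  have am3 := vm3 (N := N) hN
  have z0 : (0 : ZMod N).val = 0 := ZMod.val_zero
  -- the other side with seven vertices
  have hb' := bad_shift (bad_neg (bad_inv hb)) 1 (-1)
  have e' : ∀ x, shift ((Equiv.neg (ZMod N)).trans f.symm) 1 (-1) x = f.symm (-1 - x) + 1 := by
    intro x
    rw [shift_apply]
    show f.symm (-(x + 1)) - -1 = _
    rw [show -(x + 1) = -1 - x by ring]
    ring
  have hF : Fr (shift ((Equiv.neg (ZMod N)).trans f.symm) 1 (-1)) := by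
    refine ⟨?_, ?_, ?_⟩
    · rw [e', show (-1 : ZMod N) - -2 = 1 by ring, (Equiv.symm_apply_eq f).mpr h.g.symm]; ring
    · rw [e', show (-1 : ZMod N) - -1 = 0 by ring, (Equiv.symm_apply_eq f).mpr h.b.symm]; ring
    · rw [e', show (-1 : ZMod N) - 1 = -2 by ring, (Equiv.symm_apply_eq f).mpr hy.symm]; ring
  obtain ⟨-, -, -, h3, -⟩ := hS _ hb' hF
  rw [e', show (-1 : ZMod N) - 2 = -3 by ring] at h3
  have h4 : (f.symm (f 0 - 1)).val % 2 = 1 := by
    rw [hy, show (-2 : ZMod N) - 1 = -3 by ring]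
    have g := vsucc hN (f.symm (-3))
    have g1 : f.symm (-3) ≠ -1 := by
      intro e
      rw [Equiv.symm_apply_eq, h.b] at e
      have := congrArg ZMod.val e
      rw [am3, z0] at this
      omega
    have g2 : (f.symm (-3)).val ≠ N - 1 := by
      intro e
      rw [← am1] at e
      exact g1 (vinj e)
    omega
  obtain ⟨X, g1, g2⟩ := hW f hb h h4
  apply g2
  rw [hy] at g1
  have : (-2 : ZMod N) + 1 = -1 := by ring
  rw [this] at g1
  exact g1

/-- Case T1. -/
theorem T1 (hS : S0 N) (hW : W0 N) (hb : Bad f) (h : Fr f) : f (-3) ≠ -1 := by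
  intro hv
  have hb' := bad_shift (bad_mir (bad_inv hb)) 1 1
  have e' : ∀ x, shift (mir f.symm) 1 1 x = -1 - f.symm (x + 1) := by
    intro x
    rw [shift_apply, mir_apply]
    ring
  have hF : Fr (shift (mir f.symm) 1 1) := by
    refine ⟨?_, ?_, ?_⟩
    · rw [e', show (-2 : ZMod N) + 1 = -1 by ring, (Equiv.symm_apply_eq f).mpr hv.symm]; ring
    · rw [e', show (-1 : ZMod N) + 1 = 0 by ring, (Equiv.symm_apply_eq f).mpr h.b.symm]; ring
    · rw [e', show (1 : ZMod N) + 1 = 2 by ring, (Equiv.symm_apply_eq f).mpr h.a.symm]; ring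
  refine T3 hS hW hb' hF ?_
  rw [e', zero_add]
  rw [(Equiv.symm_apply_eq f).mpr h.g.symm]
  ring

end

end Pool.Agent.Helper61.M7
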